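import Pool.Agent.R93.MaxPl.Data

set_option autoImplicit false

/-!
# A maximal planar graph with no orientation avoiding bi-heavy vertices (MP_7589f8_co)

The graph has 70 vertices.  Base graph: `K_4` on `a b c d`, with a new vertex put into each of the
three faces at `d` and joined to its corners (7 vertices, 15 edges, 10 faces).  Nine of the faces
(all but `abc`) are filled with a copy of a triangulated disc with 7 inner vertices (dual to the Tutte
fragment); its marked corner is the new vertex.

Suppose an orientation has no vertex with in-degree and out-degree at least 2.  Colour a vertex by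
whether its out-degree is at most 1; then every edge with both ends of the same colour can be
assigned to one of its ends so that every vertex gets at most one edge.  Claim 1 (`frag`): if the
marked corner of a fragment is coloured differently from the two other corners, then one of the three
corners gets an edge to an inner vertex of the fragment.  Claim 2 (`act_all`): for every colouring of
the seven base vertices, the number of base edges with equal colours plus the number of fragments as
in Claim 1 is at least 8.  But these need distinct base vertices, and there are only seven.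
-/

namespace Pool.Agent.Results.MP_7589f8_co.BiHeavy

open Pool.Agent.H671R2.OOF Pool.Agent.R93.MaxPl

/-- `D u v` means that the edge `uv` is directed from `u` to `v`; every edge of `G` gets exactly one
direction. -/
def IsOrientation {V : Type} (G : SimpleGraph V) (D : V → V → Prop) : Prop :=
  (∀ u v, G.Adj u v ↔ (D u v ∨ D v u)) ∧ ∀ u v, D u v → ¬ D v u

/-- out-degree -/
noncomputable def outDeg {V : Type} (D : V → V → Prop) (v : V) : ℕ := {w | D v w}.ncard

/-- in-degree -/
noncomputable def inDeg {V : Type} (D : V → V → Prop) (v : V) : ℕ := {w | D w v}.ncard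

/-- `f(G, k)`: the minimum over all orientations of the number of vertices with in-degree and
out-degree at least `k`. -/
noncomputable def f {V : Type} (G : SimpleGraph V) (k : ℕ) : ℕ :=
  sInf {m | ∃ D : V → V → Prop, IsOrientation G D ∧ m = {v | k ≤ outDeg D v ∧ k ≤ inDeg D v}.ncard}

/-! ### Assignments of monochromatic edges -/

/-- Each monochromatic edge is owned by one of its ends, each vertex owns at most one edge. -/
structure Owning {V : Type} (G : SimpleGraph V) (c : V → Bool) (O : V → V → Prop) : Prop where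
  mono : ∀ u v, G.Adj u v → c u = c v → O u v ∨ O v u
  uniq : ∀ u v w, O u v → O u w → v = w

theorem fe_facts : ∀ x ∈ fe, x.1 < x.2 ∧ x.2 < 10 := by decide

theorem frag {V : Type} {G : SimpleGraph V} {c : V → Bool} {O : V → V → Prop}
    (hO : Owning G c O) (e : ℕ → V) (he : ∀ j < 10, ∀ k < 10, e j = e k → j = k)
    (hadj : ∀ x ∈ fe, G.Adj (e x.1) (e x.2)) (h02 : c (e 0) = c (e 2)) (h01 : c (e 0) ≠ c (e 1)) :
    ∃ p, p < 3 ∧ ∃ v, 3 ≤ v ∧ v < 10 ∧ O (e p) (e v) := by
  by_contra hno
  push Not at hno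
  set m : ℕ := Nat.ofBits (fun j : Fin 10 => c (e j)) with hm
  have hm1 : m < 1024 := Nat.ofBits_lt_two_pow _
  have hbit : ∀ j < 10, m.testBit j = c (e j) := by
    intro j hj
    rw [hm, Nat.testBit_ofBits_lt _ _ hj]
  have hchk : chkS m = true := List.all_eq_true.1 chkS_all m (List.mem_range.2 hm1)
  set s := sm m with hs
  have hcond : ((m.testBit 0 == m.testBit 2) && (m.testBit 0 != m.testBit 1)) = true := by
    rw [hbit 0 (by norm_num), hbit 1 (by norm_num), hbit 2 (by norm_num)]
    simp [h02]
    rw [← h02]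
    exact h01
  rw [chkS, if_pos hcond, Bool.and_eq_true, Bool.or_eq_true] at hchk
  obtain ⟨hmono, hcard⟩ := hchk
  have hcard' : (IF s).card < (EF s).card := by
    have := hcard
    rw [Nat.blt_eq] at this
    exact this
  have hsame : ∀ j < 10, ∀ k < 10, s.testBit j = true → s.testBit k = true →
      c (e j) = c (e k) := by
    intro j hj k hk h1 h2
    rcases hmono with h | h
    · have h3 : s &&& m = s := Nat.eq_of_beq_eq_true h
      have h4 : ∀ i, s.testBit i = true → m.testBit i = true := by
        intro i hi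
        rw [← h3, Nat.testBit_and, Bool.and_eq_true] at hi
        exact hi.2
      rw [← hbit j hj, ← hbit k hk, h4 j h1, h4 k h2]
    · have h3 : s &&& m = 0 := Nat.eq_of_beq_eq_true h
      have h4 : ∀ i, s.testBit i = true → m.testBit i = false := by
        intro i hi
        have := congrArg (fun x => x.testBit i) h3
        simp only [Nat.testBit_and, Nat.zero_testBit, hi, Bool.true_and] at this
        exact this
      rw [← hbit j hj, ← hbit k hk, h4 j h1, h4 k h2]
  -- the owner of an edge
  have hown : ∀ x ∈ EF s, ∃ p ∈ IF s, (p = x.1 ∧ O (e p) (e x.2)) ∨ (p = x.2 ∧ O (e p) (e x.1)) := by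
    intro x hx
    rw [EF, Finset.mem_filter, List.mem_toFinset] at hx
    obtain ⟨hx, hx'⟩ := hx
    rw [Bool.and_eq_true, Bool.and_eq_true] at hx'
    obtain ⟨⟨h1, h2⟩, h3⟩ := hx'
    have h3' : 3 ≤ x.2 := Nat.le_of_ble_eq_true h3
    obtain ⟨hlt, hlt2⟩ := fe_facts x hx
    have hlt1 : x.1 < 10 := by omega
    rcases hO.mono _ _ (hadj x hx) (hsame _ hlt1 _ hlt2 h1 h2) with h | h
    · refine ⟨x.1, ?_, Or.inl ⟨rfl, h⟩⟩
      have h4 : 3 ≤ x.1 := by
        by_contra h4
        exact hno x.1 (by omega) x.2 h3' hlt2 h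
      rw [IF, Finset.mem_filter, Finset.mem_range]
      exact ⟨hlt1, by rw [Bool.and_eq_true]; exact ⟨Nat.ble_eq_true_of_le h4, h1⟩⟩
    · refine ⟨x.2, ?_, Or.inr ⟨rfl, h⟩⟩
      rw [IF, Finset.mem_filter, Finset.mem_range]
      exact ⟨hlt2, by rw [Bool.and_eq_true]; exact ⟨h3, h2⟩⟩
  choose! g hg1 hg2 using hown
  obtain ⟨x, hx, y, hy, hxy, hgxy⟩ :=
    Finset.exists_ne_map_eq_of_card_lt_of_maps_to hcard' hg1
  have hfx : x ∈ fe := by
    rw [EF, Finset.mem_filter, List.mem_toFinset] at hx; exact hx.1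
  have hfy : y ∈ fe := by
    rw [EF, Finset.mem_filter, List.mem_toFinset] at hy; exact hy.1
  obtain ⟨x1, x2⟩ := x
  obtain ⟨y1, y2⟩ := y
  have hx3 := fe_facts _ hfx
  have hy3 := fe_facts _ hfy
  simp only at hx3 hy3
  have h1 := hg2 _ hx
  have h2 := hg2 _ hy
  simp only at h1 h2
  rw [← hgxy] at h2
  apply hxy
  rcases h1 with ⟨e1, o1⟩ | ⟨e1, o1⟩ <;> rcases h2 with ⟨e2, o2⟩ | ⟨e2, o2⟩
  · have := he _ (by omega) _ (by omega) (hO.uniq _ _ _ o1 o2)
    rw [← e1, ← e2, this]
  · have := he _ (by omega) _ (by omega) (hO.uniq _ _ _ o1 o2)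
    omega
  · have := he _ (by omega) _ (by omega) (hO.uniq _ _ _ o1 o2)
    omega
  · have := he _ (by omega) _ (by omega) (hO.uniq _ _ _ o1 o2)
    rw [← e1, ← e2, this]

theorem em_lt : ∀ i < 9, ∀ j < 10, em i j < 70 := by decide

theorem em_outer : ∀ i < 9, ∀ j < 3, em i j < 7 := by decide

theorem em_inner : ∀ i < 9, ∀ j < 10, 3 ≤ j → 7 * i + 7 ≤ em i j ∧ em i j < 7 * i + 14 := by
  intro i _ j hj h3
  have : ¬ j < 3 := by omega
  rw [Pool.Agent.R93.MaxPl.em, if_neg this]
  omega

theorem em_inj : ∀ i < 9, ∀ j < 10, ∀ k < 10, em i j = em i k → j = k := by decide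

theorem be_lt : ∀ t < 15, (be.getD t (0, 0)).1 < 7 ∧ (be.getD t (0, 0)).2 < 7 := by decide

theorem be_mem : ∀ t < 15, be.getD t (0, 0) ∈ be := by decide

theorem be_inj : ∀ t < 15, ∀ t' < 15,
    (be.getD t (0, 0) = be.getD t' (0, 0) ∨
      be.getD t (0, 0) = ((be.getD t' (0, 0)).2, (be.getD t' (0, 0)).1)) → t = t' := by decide

/-- The target of a demand. -/
def Rel (t p w : ℕ) : Prop :=
  (t < 15 ∧ ((p, w) = be.getD t (0, 0) ∨ (w, p) = be.getD t (0, 0))) ∨
  (15 ≤ t ∧ 7 * (t - 15) + 7 ≤ w ∧ w < 7 * (t - 15) + 14)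

theorem rel_inj {t t' p w : ℕ} (h : Rel t p w) (h' : Rel t' p w) : t = t' := by
  rcases h with ⟨h1, h2⟩ | ⟨h1, h2, h3⟩
  · have hb := be_lt t h1
    have hw : w < 7 := by
      rcases h2 with h2 | h2
      · rw [← h2] at hb; exact hb.2
      · rw [← h2] at hb; exact hb.1
    rcases h' with ⟨h4, h5⟩ | ⟨h4, h5, h6⟩
    · refine be_inj t h1 t' h4 ?_
      rcases h2 with h2 | h2 <;> rcases h5 with h5 | h5
      · left; rw [← h2, ← h5]
      · right; rw [← h2, ← h5]
      · right; rw [← h2, ← h5]
      · left; rw [← h2, ← h5]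
    · omega
  · rcases h' with ⟨h4, h5⟩ | ⟨h4, h5, h6⟩
    · have hb := be_lt t' h4
      have hw : w < 7 := by
        rcases h5 with h5 | h5
        · rw [← h5] at hb; exact hb.2
        · rw [← h5] at hb; exact hb.1
      omega
    · omega

theorem no_owning (c : Fin 70 → Bool) (O : Fin 70 → Fin 70 → Prop)
    (hO : Owning T.graph c O) : False := by
  set vt : ℕ → Fin 70 := fun j => Fin.ofNat 70 j with hvt
  have vtv : ∀ j < 70, (vt j).val = j := fun j hj => by
    simp [hvt, Fin.ofNat, Nat.mod_eq_of_lt hj]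
  have vtm : ∀ j (hj : j < 70), vt j = ⟨j, hj⟩ := fun j hj => Fin.ext (vtv j hj)
  have vti : ∀ j < 70, ∀ k < 70, vt j = vt k → j = k := fun j hj k hk h => by
    rw [← vtv j hj, ← vtv k hk, h]
  set m : ℕ := Nat.ofBits (fun j : Fin 7 => c (vt j)) with hm
  have hm1 : m < 128 := Nat.ofBits_lt_two_pow _
  have hbit : ∀ j < 7, m.testBit j = c (vt j) := by
    intro j hj
    rw [hm, Nat.testBit_ofBits_lt _ _ hj]
  have hcard : 8 ≤ ((Finset.range 24).filter fun t => act m t = true).card :=
    Nat.le_of_ble_eq_true (List.all_eq_true.1 act_all m (List.mem_range.2 hm1))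
  have hown : ∀ t ∈ (Finset.range 24).filter (fun t => act m t = true),
      ∃ p ∈ Finset.range 7, ∃ w, w < 70 ∧ O (vt p) (vt w) ∧ Rel t p w := by
    intro t ht
    rw [Finset.mem_filter, Finset.mem_range] at ht
    obtain ⟨ht, ha⟩ := ht
    by_cases h15 : t < 15
    · rw [act, if_pos h15] at ha
      obtain ⟨b1, b2⟩ := be_lt t h15
      set x := be.getD t (0, 0) with hx
      have hh : has x.1 x.2 = true := List.all_eq_true.1 be_adj x (be_mem t h15)
      have hadj := adj_of_has hh (by omega) (by omega)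
      rw [← vtm, ← vtm] at hadj
      have hc : c (vt x.1) = c (vt x.2) := by
        rw [← hbit _ b1, ← hbit _ b2]
        exact eq_of_beq ha
      rcases hO.mono _ _ hadj hc with h | h
      · exact ⟨x.1, Finset.mem_range.2 b1, x.2, by omega, h, Or.inl ⟨h15, Or.inl rfl⟩⟩
      · exact ⟨x.2, Finset.mem_range.2 b2, x.1, by omega, h, Or.inl ⟨h15, Or.inr rfl⟩⟩
    · rw [act, if_neg h15, Bool.and_eq_true] at ha
      have hi : t - 15 < 9 := by omega
      set i := t - 15 with hidef
      have o0 := em_outer i hi 0 (by norm_num)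
      have o1 := em_outer i hi 1 (by norm_num)
      have o2 := em_outer i hi 2 (by norm_num)
      have h02 : c (vt (em i 0)) = c (vt (em i 2)) := by
        rw [← hbit _ o0, ← hbit _ o2]
        exact eq_of_beq ha.1
      have h01 : c (vt (em i 0)) ≠ c (vt (em i 1)) := by
        rw [← hbit _ o0, ← hbit _ o1]
        exact bne_iff_ne.1 ha.2
      obtain ⟨p, hp, v, hv3, hv10, hpv⟩ := frag hO (fun j => vt (em i j))
        (fun j hj k hk h => em_inj i hi j hj k hk
          (vti _ (em_lt i hi j hj) _ (em_lt i hi k hk) h))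
        (fun x hx => by
          have h1 := List.all_eq_true.1 (List.all_eq_true.1 fe_adj i (List.mem_range.2 hi)) x hx
          have hx3 := fe_facts x hx
          have h2 := adj_of_has h1 (em_lt i hi _ (by omega)) (em_lt i hi _ (by omega))
          rw [← vtm, ← vtm] at h2
          exact h2) h02 h01
      have hin := em_inner i hi v hv10 hv3
      exact ⟨em i p, Finset.mem_range.2 (em_outer i hi p hp), em i v, em_lt i hi v hv10, hpv,
        Or.inr ⟨by omega, hin.1, hin.2⟩⟩
  choose! g hg1 w hw hOw hR using hown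
  obtain ⟨t, ht, t', ht', hne, heq⟩ := Finset.exists_ne_map_eq_of_card_lt_of_maps_to
    (t := Finset.range 7) (f := g) (by rw [Finset.card_range]; omega) hg1
  apply hne
  have h1 := hOw t ht
  have h2 := hOw t' ht'
  rw [← heq] at h2
  have h3 := vti _ (hw t ht) _ (hw t' ht') (hO.uniq _ _ _ h1 h2)
  have r1 := hR t ht
  have r2 := hR t' ht'
  rw [← heq, ← h3] at r2
  exact rel_inj r1 r2

theorem le_one_iff {V : Type} [Finite V] {S : Set V} (h : S.ncard ≤ 1) :
    ∀ a ∈ S, ∀ b ∈ S, a = b := by
  intro a ha b hb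
  exact (Set.ncard_le_one (Set.toFinite S)).1 h a ha b hb

theorem exists_biHeavy (D : Fin 70 → Fin 70 → Prop) (hD : IsOrientation T.graph D) :
    ∃ v, 2 ≤ outDeg D v ∧ 2 ≤ inDeg D v := by
  classical
  by_contra hno
  push Not at hno
  refine no_owning (fun v => decide (outDeg D v ≤ 1))
    (fun u v => if outDeg D u ≤ 1 then D u v else D v u) ⟨?_, ?_⟩
  · intro u v huv hc
    have hc' : (outDeg D u ≤ 1) ↔ (outDeg D v ≤ 1) := by simpa using hc
    rcases (hD.1 u v).1 huv with h | h
    · by_cases h1 : outDeg D u ≤ 1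
      · left; rw [if_pos h1]; exact h
      · right; rw [if_neg (fun h2 => h1 (hc'.2 h2))]; exact h
    · by_cases h1 : outDeg D u ≤ 1
      · right; rw [if_pos (hc'.1 h1)]; exact h
      · left; rw [if_neg h1]; exact h
  · intro u v w h1 h2
    by_cases h : outDeg D u ≤ 1
    · rw [if_pos h] at h1 h2
      exact le_one_iff (S := {w | D u w}) h v h1 w h2
    · rw [if_neg h] at h1 h2
      have h3 := hno u (by omega)
      exact le_one_iff (S := {w | D w u}) (by show inDeg D u ≤ 1; omega) v h1 w h2

/-- There is a maximal planar graph (on 70 vertices) such that every orientation has a vertex with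
in-degree and out-degree at least two, that is, `f(G, 2) > 0`. -/
theorem result : ∃ G : SimpleGraph (Fin 70), MaximalPlanar G ∧
    (∀ D : Fin 70 → Fin 70 → Prop, IsOrientation G D → ∃ v, 2 ≤ outDeg D v ∧ 2 ≤ inDeg D v) ∧
    0 < f G 2 := by
  refine ⟨T.graph, T_maximalPlanar, exists_biHeavy, ?_⟩
  have hne : {m | ∃ D : Fin 70 → Fin 70 → Prop, IsOrientation T.graph D ∧
      m = {v | 2 ≤ outDeg D v ∧ 2 ≤ inDeg D v}.ncard}.Nonempty := by
    refine ⟨_, fun u v => T.graph.Adj u v ∧ u < v, ⟨fun u v => ?_, fun u v h h' => ?_⟩, rfl⟩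
    · constructor
      · intro h
        rcases lt_or_gt_of_ne h.ne with h1 | h1
        · exact Or.inl ⟨h, h1⟩
        · exact Or.inr ⟨h.symm, h1⟩
      · rintro (h | h)
        · exact h.1
        · exact h.1.symm
    · exact absurd (h.2.trans h'.2) (lt_irrefl _)
  obtain ⟨D, hD, hm⟩ := Nat.sInf_mem hne
  show 0 < sInf _
  rw [hm]
  obtain ⟨v, hv⟩ := exists_biHeavy D hD
  exact (Set.ncard_pos (Set.toFinite _)).2 ⟨v, hv⟩

end Pool.Agent.Results.MP_7589f8_co.BiHeavy
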